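import Pool.Agent.H61.KU.TA

/-!
Module CEE (A05) of the board ku_modules: images of compact convex sets of a finite dimensional
normed space are cell-like.
-/

set_option autoImplicit false

open Set Topology Pool.Agent.H61.KU

namespace Pool.Agent.H14.KU

/-- A05. The same for compact convex sets in a finite dimensional normed space. -/
theorem pf_cee (hC : T_CEL) : T_CEE := by
  intro Y _ _ hY V _ _ _ C h hCc hCv hCn hh hinj
  let e : V ≃L[ℝ] (Fin (Module.finrank ℝ V) → ℝ) :=
    ContinuousLinearEquiv.ofFinrankEq (by simp)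
  have himg : (fun x => h (e.symm x)) '' (e '' C) = h '' C := by
    rw [Set.image_image]
    simp
  rw [← himg]
  refine hC Y hY _ (e '' C) (fun x => h (e.symm x)) ?_ ?_ ?_ ?_ ?_
  · exact hCc.image e.continuous
  · exact hCv.linear_image (e : V →ₗ[ℝ] (Fin (Module.finrank ℝ V) → ℝ))
  · exact hCn.image _
  · refine ContinuousOn.comp (t := C) hh e.symm.continuous.continuousOn ?_
    rintro _ ⟨x, hx, rfl⟩
    simpa using hx
  · rintro _ ⟨x, hx, rfl⟩ _ ⟨y, hy, rfl⟩ hxy
    simp only [ContinuousLinearEquiv.symm_apply_apply] at hxy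
    rw [hinj hx hy hxy]

end Pool.Agent.H14.KU
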