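import Pool.Agent.H61.KU.TA

/-!
Module COU (A01) of the board ku_modules: induction over an interval.
-/

set_option autoImplicit false

open Set Pool.Agent.H61.KU

namespace Pool.Agent.H14.KU

/-- A01. Induction over an interval (Cousin's lemma). -/
theorem pf_cou : T_COU := by
  intro Q a b hab hmono hadd hloc
  set S : Set ℝ := {x | x ∈ Icc a b ∧ Q a x} with hS
  have haS : a ∈ S := by
    refine ⟨left_mem_Icc.2 hab, ?_⟩
    obtain ⟨e, he, hQ⟩ := hloc a (left_mem_Icc.2 hab)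
    exact hmono (a - e) a a (a + e) (by linarith) le_rfl (by linarith) hQ
  have hbdd : BddAbove S := ⟨b, fun x hx => hx.1.2⟩
  have hs1 : a ≤ sSup S := le_csSup hbdd haS
  have hs2 : sSup S ≤ b := csSup_le ⟨a, haS⟩ fun x hx => hx.1.2
  obtain ⟨e, he, hQ⟩ := hloc (sSup S) ⟨hs1, hs2⟩
  obtain ⟨x, hx, hxs⟩ := exists_lt_of_lt_csSup ⟨a, haS⟩ (by linarith : sSup S - e < sSup S)
  have hx1 : x ≤ sSup S := le_csSup hbdd hx
  have hx2 : x ≤ min (sSup S + e / 2) b := le_min (by linarith) hx.1.2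
  have hQ1 : Q x (min (sSup S + e / 2) b) :=
    hmono (sSup S - e) x _ (sSup S + e) hxs.le hx2 ((min_le_left _ _).trans (by linarith)) hQ
  have hQ2 : Q a (min (sSup S + e / 2) b) := hadd a x _ hx.1.1 hx2 hx.1 hx.2 hQ1
  have hmem : min (sSup S + e / 2) b ∈ S := ⟨⟨hx.1.1.trans hx2, min_le_right _ _⟩, hQ2⟩
  have hle : min (sSup S + e / 2) b ≤ sSup S := le_csSup hbdd hmem
  rcases le_total (sSup S + e / 2) b with h | h
  · rw [min_eq_left h] at hle
    linarith
  · rw [min_eq_right h] at hQ2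
    exact hQ2

end Pool.Agent.H14.KU
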